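import Pool.Agent.X242.UW7
import Pool.Agent.X298.ST.Main

/-!
# Leading terms at the integers `1 - k` of `L`-series of abelian extensions, and universal rational weights

`K` is a number field, `𝔪 ≠ (0), (1)` an ideal, `G` a finite commutative group and `c` a map from the ideals to `G` which is
multiplicative on the ideals prime to `𝔪` and trivial on the ideals `(x)`, `x ≡ 1` modulo `𝔪`, `x` totally positive: for
instance the Artin symbol of an abelian extension `L/K`, with `𝔪` divisible by the finite part of the conductor. For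
`f : G → ℂ` let `L(s, f) = ∑ f(c(𝔞)) N𝔞^{-s}`, over the ideals prime to `𝔪` (`Re s > 1`); for characters `f = χ` this is
`L_S(s, χ)`.

**The weights.** For `d ≥ 0` let `C_d(γ) = (-1)^d (d/dt)^d (e^{iγt} / Γ(1 + t))` at `t = 0`. Fix `γ > π/2` with
`C_d(γ) ≠ 0` and rational numbers `ρ_N(n)`, for every `N` almost all of them zero, with
`|ρ_N(n) - Re (N^d e^{iγ log n / N} / (C_d(γ) Γ(1 + log n / N)))| ≤ 1 / (N n²)`. They exist, and depend only on `d`.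

For `k ≥ 1` and a function `f : G → E` with values in a field `E` of characteristic `0` let
`x_N(f) = k^{-d} ∑_n ρ_N(n^k) n^{k-1} b_n(f) ∈ E`, a finite sum, with `b_n(f) = ∑ f(c(𝔞))` over the ideals prime to `𝔪` of
norm `n`.

1. `L(s, f)` has a continuation, analytic outside of `1`, meromorphic at `1` (unconditionally).
2. `x_N(σ ∘ f) = σ(x_N(f))` for all homomorphisms `σ : E → E'`.
3. If `L(s, f) = θ (s - 1 + k)^d + O((s - 1 + k)^{d+1})` at `1 - k`: `x_N(f) = θ + O(1/N)`.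
4. Let `f` have values in a number field `E`, let all the `L(s, f^τ)`, `τ : E → ℂ`, have the order `d` at `1 - k` and the
   leading coefficients `θ^τ`, and let `R^τ` be complex numbers (in the problem the regulators `R(χ^τ)`, and `f = χ`).
   Equivalent are: there is an `e ∈ E` with `R^τ / θ^τ = τ(e)` for all `τ` (the assertion of Q1 for `χ` and its
   conjugates); there is an `e ∈ E` with `R^τ = lim τ(e x_N(f))` for all `τ`; for some `D ≥ 1` the vector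
   `(D R^τ / τ(x_N(f)))_τ` comes arbitrarily close to the lattice of the integers of `E` for arbitrarily large `N`.
-/

set_option autoImplicit false

open Filter Topology Asymptotics
open IsDedekindDomain NumberField

namespace Pool.Agent.Results.MP_5b8472_nt.AbelianEquivariantApproximations

open Pool.Agent.X298.ST Pool.Agent.X242.DR

section

variable {K : Type} [Field K] [NumberField K]

/-- `c` is multiplicative on the ideals prime to `𝔪` and trivial on the principal ideals of totally positive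
`x ≡ 1` modulo `𝔪`. -/
structure IsClassMap {G : Type} [Group G] (𝔪 : Ideal (𝓞 K)) (c : Ideal (𝓞 K) → G) : Prop where
  mul : ∀ I J : Ideal (𝓞 K), IsCoprime I 𝔪 → IsCoprime J 𝔪 → c (I * J) = c I * c J
  ray : ∀ x : 𝓞 K, x ≠ 0 → x - 1 ∈ 𝔪 → (∀ σ : K →+* ℝ, 0 < σ (x : K)) → c (Ideal.span {x}) = 1

/-- `N𝔞^{-s}` -/
noncomputable def npow (𝔞 : Ideal (𝓞 K)) (s : ℂ) : ℂ := ((Ideal.absNorm 𝔞 : ℕ) : ℂ) ^ (-s)

/-- `Λ` is `L(s, f)`: the sum over the ideals prime to `𝔪` for `Re s > 1`, continued to a function which is analytic outside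
of `1` and meromorphic at `1`. -/
structure IsL {G : Type} (𝔪 : Ideal (𝓞 K)) (c : Ideal (𝓞 K) → G) (f : G → ℂ) (Λ : ℂ → ℂ) : Prop where
  series : ∀ s : ℂ, 1 < s.re → HasSum (fun 𝔞 : {𝔞 : Ideal (𝓞 K) // IsCoprime 𝔞 𝔪} =>
    f (c 𝔞.1) * npow 𝔞.1 s) (Λ s)
  analytic : ∀ s : ℂ, s ≠ 1 → AnalyticAt ℂ Λ s
  mero : MeromorphicAt Λ 1

open Classical in
/-- `b_n(f)` -/
noncomputable def coeff {G E : Type} [Field E] (𝔪 : Ideal (𝓞 K)) (c : Ideal (𝓞 K) → G) (f : G → E)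
    (n : ℕ) : E :=
  byNorm (fun 𝔞 : Ideal (𝓞 K) => if IsCoprime 𝔞 𝔪 then f (c 𝔞) else 0) n

/-- `x_N(f) = k^{-d} ∑_n ρ_N(n^k) n^{k-1} b_n(f)`, for `ρ = ρ_N` -/
noncomputable def approx {G E : Type} [Field E] (𝔪 : Ideal (𝓞 K)) (c : Ideal (𝓞 K) → G) (k d : ℕ)
    (ρ : ℕ →₀ ℚ) (f : G → E) : E :=
  comb ρ (powCoef k fun n : ℕ => (n : E) ^ (k - 1) * coeff 𝔪 c f n) / (k : E) ^ d

/-- `θ` is the leading coefficient of `Λ` at `1 - k` if the order is `d`: `Λ(s) = θ (s - 1 + k)^d + ⋯`. -/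
def HasLead (k d : ℕ) (Λ : ℂ → ℂ) (θ : ℂ) : Prop :=
  Tendsto (fun s : ℂ => Λ (s + (1 - k)) / s ^ d) (𝓝[≠] 0) (𝓝 θ)

theorem coeff_map {G E E' : Type} [Field E] [Field E'] (σ : E →+* E') (𝔪 : Ideal (𝓞 K))
    (c : Ideal (𝓞 K) → G) (f : G → E) (n : ℕ) :
    coeff 𝔪 c (fun g => σ (f g)) n = σ (coeff 𝔪 c f n) := by
  classical
  unfold coeff
  have e := byNorm_map (K := K) σ.toAddMonoidHom
    (fun 𝔞 : Ideal (𝓞 K) => if IsCoprime 𝔞 𝔪 then f (c 𝔞) else 0) n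
  have e2 : (fun 𝔞 : Ideal (𝓞 K) => σ.toAddMonoidHom (if IsCoprime 𝔞 𝔪 then f (c 𝔞) else 0)) =
      fun 𝔞 : Ideal (𝓞 K) => if IsCoprime 𝔞 𝔪 then σ (f (c 𝔞)) else 0 := by
    funext 𝔞
    split_ifs
    · rfl
    · exact map_zero σ
  rw [e2] at e
  exact e

theorem approx_map {G E E' : Type} [Field E] [CharZero E] [Field E'] [CharZero E'] (σ : E →+* E')
    (𝔪 : Ideal (𝓞 K)) (c : Ideal (𝓞 K) → G) (k d : ℕ) (ρ : ℕ →₀ ℚ) (f : G → E) :
    approx 𝔪 c k d ρ (fun g => σ (f g)) = σ (approx 𝔪 c k d ρ f) := by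
  unfold approx
  rw [map_div₀, map_pow, map_natCast]
  congr 1
  have e : (powCoef k fun n : ℕ => (n : E') ^ (k - 1) * coeff 𝔪 c (fun g => σ (f g)) n) =
      fun m => σ (powCoef k (fun n : ℕ => (n : E) ^ (k - 1) * coeff 𝔪 c f n) m) := by
    funext m
    have e1 := powCoef_map σ.toAddMonoidHom k (fun n : ℕ => (n : E) ^ (k - 1) * coeff 𝔪 c f n) m
    have e2 : (fun n : ℕ => σ.toAddMonoidHom ((n : E) ^ (k - 1) * coeff 𝔪 c f n)) =
        fun n : ℕ => (n : E') ^ (k - 1) * coeff 𝔪 c (fun g => σ (f g)) n := by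
      funext n
      rw [coeff_map]
      show σ _ = _
      rw [map_mul, map_pow, map_natCast]
    rw [e2] at e1
    exact e1
  rw [e, comb_hom σ ρ]

theorem exists_isL {G : Type} [Group G] [Finite G] (hcomm : ∀ a b : G, a * b = b * a)
    {𝔪 : Ideal (𝓞 K)} (h0 : 𝔪 ≠ ⊥) (h1 : 𝔪 ≠ ⊤) {c : Ideal (𝓞 K) → G} (hc : IsClassMap 𝔪 c)
    (f : G → ℂ) : ∃ Λ : ℂ → ℂ, IsL 𝔪 c f Λ := by
  classical
  have iF : Fintype G := Fintype.ofFinite _
  obtain ⟨⟨ζ, hζ⟩, -⟩ := class_facts (K := K) (R := ∅) hcomm h1 h0 hc.mul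
    fun x hx0 hx1 hx2 => hc.ray x hx0 hx1 fun σ => hx2 σ (by simp)
  refine ⟨fun s => ∑ g, f g * ζ g s, fun s hs => ?_, fun s hs => ?_, ?_⟩
  · show HasSum (fun 𝔞 : {𝔞 : Ideal (𝓞 K) // IsCoprime 𝔞 𝔪} =>
      f (c 𝔞.1) * ((Ideal.absNorm 𝔞.1 : ℕ) : ℂ) ^ (-s)) (∑ g, f g * ζ g s)
    have h2 : ∀ g : G, HasSum (fun 𝔞 : {𝔞 : Ideal (𝓞 K) // IsCoprime 𝔞 𝔪} =>
        f g * (if c 𝔞.1 = g then ((Ideal.absNorm 𝔞.1 : ℕ) : ℂ) ^ (-s) else 0)) (f g * ζ g s) := by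
      intro g
      refine HasSum.mul_left _ ?_
      have h3 := hζ.series g s hs
      have h4 := (hasSum_subtype_iff_indicator (s := {𝔞 : Ideal (𝓞 K) | IsCoprime 𝔞 𝔪 ∧ c 𝔞 = g})
        (f := fun 𝔞 : Ideal (𝓞 K) => ((Ideal.absNorm 𝔞 : ℕ) : ℂ) ^ (-s))).1 h3
      refine (hasSum_subtype_iff_indicator (s := {𝔞 : Ideal (𝓞 K) | IsCoprime 𝔞 𝔪})
        (f := fun 𝔞 : Ideal (𝓞 K) => if c 𝔞 = g then ((Ideal.absNorm 𝔞 : ℕ) : ℂ) ^ (-s) else 0)).2 ?_
      refine h4.congr_fun fun 𝔞 => ?_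
      simp only [Set.indicator_apply, Set.mem_ofPred_eq]
      by_cases h5 : IsCoprime 𝔞 𝔪 <;> by_cases h6 : c 𝔞 = g <;> simp [h5, h6]
    have h3 := hasSum_sum fun g (_ : g ∈ Finset.univ) => h2 g
    refine h3.congr_fun fun 𝔞 => ?_
    rw [Finset.sum_eq_single (c 𝔞.1)]
    · rw [if_pos rfl]
    · intro g _ hg
      rw [if_neg (Ne.symm hg), mul_zero]
    · intro h
      exact absurd (Finset.mem_univ _) h
  · exact Finset.analyticAt_fun_sum _ fun g _ => analyticAt_const.fun_mul (hζ.analytic g s hs)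
  · have key : ∀ T : Finset G, MeromorphicAt (fun s : ℂ => ∑ g ∈ T, f g * ζ g s) 1 := by
      intro T
      induction T using Finset.induction_on with
      | empty => simp
      | insert q T hq ih =>
        simp only [Finset.sum_insert hq]
        exact ((MeromorphicAt.const _ _).fun_mul (hζ.mero q)).fun_add ih
    exact key Finset.univ

/-- **The law.** -/
theorem law {G : Type} [Finite G] {𝔪 : Ideal (𝓞 K)} (h1 : 𝔪 ≠ ⊤) {c : Ideal (𝓞 K) → G} {f : G → ℂ}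
    {Λ : ℂ → ℂ} (hΛ : IsL 𝔪 c f Λ) {k d : ℕ} (hk : 1 ≤ k) {θ : ℂ} (hθ : HasLead k d Λ θ) {γ : ℝ}
    (hγ : Real.pi / 2 < γ) (hC : Ck d γ ≠ 0) {ρ : ℕ → ℕ →₀ ℚ} (hρ : IsRational d γ ρ) :
    (fun N : ℕ => approx 𝔪 c k d (ρ N) f - θ) =O[atTop] (fun N : ℕ => 1 / (N : ℝ)) := by
  classical
  have iF : Fintype G := Fintype.ofFinite _
  have hk0 : (k : ℂ) ≠ 0 := by exact_mod_cast (by omega : k ≠ 0)
  have hb : ∀ 𝔞 : Ideal (𝓞 K), ‖(if IsCoprime 𝔞 𝔪 then f (c 𝔞) else 0)‖ ≤ ∑ g, ‖f g‖ := by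
    intro 𝔞
    split_ifs
    · exact Finset.single_le_sum (f := fun g => ‖f g‖) (fun _ _ => norm_nonneg _) (Finset.mem_univ _)
    · rw [norm_zero]
      exact Finset.sum_nonneg fun g _ => norm_nonneg _
  have hz : (if IsCoprime (⊥ : Ideal (𝓞 K)) 𝔪 then f (c ⊥) else 0) = 0 := by
    rw [if_neg]
    intro h2
    rw [← Ideal.zero_eq_bot, isCoprime_zero_left] at h2
    exact h1 (Ideal.isUnit_iff.1 h2)
  have hmer : ∀ x : ℝ, x ≤ 1 → MeromorphicAt Λ (x : ℂ) := by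
    intro x _
    by_cases hx : (x : ℂ) = 1
    · rw [hx]
      exact hΛ.mero
    · exact (hΛ.analytic _ hx).meromorphicAt
  have hS : IsSeries (coeff 𝔪 c f) Λ := by
    refine isSeries_ideals hb hz (fun x _ hx => hmer x hx) fun s hs => ?_
    have h2 := (hasSum_subtype_iff_indicator (s := {𝔞 : Ideal (𝓞 K) | IsCoprime 𝔞 𝔪})
      (f := fun 𝔞 : Ideal (𝓞 K) => f (c 𝔞) * ((Ideal.absNorm 𝔞 : ℕ) : ℂ) ^ (-s))).1 (hΛ.series s hs)
    refine h2.congr_fun fun 𝔞 => ?_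
    simp only [Set.indicator_apply, Set.mem_ofPred_eq]
    split_ifs
    · rfl
    · rw [zero_mul]
  have han : AnalyticAt ℂ Λ (1 - k) := by
    refine hΛ.analytic _ ?_
    intro h2
    exact hk0 (by linear_combination -h2)
  have h2 := shift_law hS (byNorm_zero hz) hk hmer han hθ hγ hC hρ
  have h3 := h2.const_mul_left (((k : ℂ) ^ d)⁻¹)
  refine h3.congr_left fun N => ?_
  unfold approx
  have hkd : (k : ℂ) ^ d ≠ 0 := pow_ne_zero _ hk0
  field_simp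

/-- quotients of the approximations -/
theorem quot_bigO {x : ℕ → ℂ} {l R : ℂ} (hl : l ≠ 0)
    (hO : (fun N : ℕ => x N - l) =O[atTop] fun N : ℕ => 1 / (N : ℝ))
    (hx : Tendsto x atTop (𝓝 l)) :
    (fun T : ℝ => R / x ⌊T⌋₊ - R / l) =O[atTop] fun T : ℝ => 1 / T := by
  have h1 : (fun N : ℕ => R / x N - R / l) =O[atTop] fun N : ℕ => 1 / (N : ℝ) := by
    have h2 : ∀ᶠ N in atTop, x N ≠ 0 := hx.eventually_ne hl
    have h3 : (fun N : ℕ => (-R / (x N * l)) * (x N - l)) =O[atTop]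
        fun N : ℕ => (1 : ℝ) * (1 / (N : ℝ)) := by
      refine IsBigO.mul ?_ hO
      have h4 : Tendsto (fun N : ℕ => -R / (x N * l)) atTop (𝓝 (-R / (l * l))) :=
        tendsto_const_nhds.div (hx.mul_const l) (mul_ne_zero hl hl)
      exact h4.isBigO_one ℝ
    simp only [one_mul] at h3
    refine h3.congr' ?_ EventuallyEq.rfl
    filter_upwards [h2] with N hN
    field_simp
    ring
  have h2 := h1.comp_tendsto (tendsto_nat_floor_atTop (α := ℝ))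
  refine IsBigO.trans h2 ?_
  refine IsBigO.of_bound 2 ?_
  filter_upwards [eventually_ge_atTop (1 : ℝ)] with T hT
  have h3 : T < ⌊T⌋₊ + 1 := Nat.lt_floor_add_one T
  have h4 : 1 ≤ ⌊T⌋₊ := Nat.le_floor (by simpa using hT)
  have h5 : (1 : ℝ) ≤ (⌊T⌋₊ : ℝ) := by exact_mod_cast h4
  simp only [Function.comp_def]
  rw [Real.norm_eq_abs, Real.norm_eq_abs, abs_of_pos (by positivity), abs_of_pos (by positivity),
    mul_one_div, div_le_div_iff₀ (by positivity) (by positivity)]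
  linarith

/-- There is an `e ∈ E` with `R^τ / θ^τ = τ(e)` for all `τ : E → ℂ`. -/
def HasElement {E : Type} [Field E] (R θ : (E →+* ℂ) → ℂ) : Prop :=
  ∃ e : E, ∀ τ : E →+* ℂ, R τ / θ τ = τ e

end

/-- **Leading terms at `1 - k` of `L`-series of abelian extensions.** -/
theorem result :
    -- 0. the weights exist
    ((∀ d : ℕ, {γ : ℝ | Ck d γ = 0}.Finite) ∧ ∀ (d : ℕ) (γ : ℝ), ∃ ρ, IsRational d γ ρ) ∧
    ∀ (d : ℕ) (γ : ℝ), Real.pi / 2 < γ → Ck d γ ≠ 0 → ∀ ρ : ℕ → ℕ →₀ ℚ, IsRational d γ ρ →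
    ∀ k : ℕ, 1 ≤ k → ∀ (K : Type) [Field K] [NumberField K] (G : Type) [Group G] [Finite G],
      (∀ a b : G, a * b = b * a) → ∀ 𝔪 : Ideal (𝓞 K), 𝔪 ≠ ⊥ → 𝔪 ≠ ⊤ →
    ∀ c : Ideal (𝓞 K) → G, IsClassMap 𝔪 c →
    -- 1. continuation
    (∀ f : G → ℂ, ∃ Λ : ℂ → ℂ, IsL 𝔪 c f Λ) ∧
    -- 2. equivariance
    (∀ (E E' : Type) [Field E] [CharZero E] [Field E'] [CharZero E'] (σ : E →+* E') (f : G → E) (N : ℕ),
      approx 𝔪 c k d (ρ N) (fun g => σ (f g)) = σ (approx 𝔪 c k d (ρ N) f)) ∧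
    -- 3. leading terms
    (∀ (f : G → ℂ) (Λ : ℂ → ℂ) (θ : ℂ), IsL 𝔪 c f Λ → HasLead k d Λ θ →
      (fun N : ℕ => approx 𝔪 c k d (ρ N) f - θ) =O[atTop] fun N : ℕ => 1 / (N : ℝ)) ∧
    -- 4. a character with values in a number field
    (∀ (E : Type) [Field E] [NumberField E] (f : G → E) (Λ : (E →+* ℂ) → ℂ → ℂ) (θ : (E →+* ℂ) → ℂ),
      (∀ τ : E →+* ℂ, IsL 𝔪 c (fun g => τ (f g)) (Λ τ) ∧ θ τ ≠ 0 ∧ HasLead k d (Λ τ) (θ τ)) →
      ∀ R : (E →+* ℂ) → ℂ,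
      (HasElement R θ ↔ ∃ e : E, ∀ τ : E →+* ℂ,
        Tendsto (fun N => τ (e * approx 𝔪 c k d (ρ N) f)) atTop (𝓝 (R τ))) ∧
      (HasElement R θ ↔
        ∃ D : ℕ, 1 ≤ D ∧ ∀ ε : ℝ, 0 < ε → ∀ N₀ : ℕ, ∃ N ≥ N₀, ∃ z : 𝓞 E, ∀ τ : E →+* ℂ,
          ‖D * (R τ / τ (approx 𝔪 c k d (ρ N) f)) - τ (z : E)‖ < ε)) := by
  refine ⟨⟨rot_finite, exists_rational⟩, ?_⟩
  intro d γ hγ hC ρ hρ k hk K _ _ G _ _ hcomm 𝔪 h0 h1 c hc
  refine ⟨fun f => exists_isL hcomm h0 h1 hc f, fun E E' _ _ _ _ σ f N => approx_map σ 𝔪 c k d (ρ N) f,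
    fun f Λ θ hΛ hθ => law h1 hΛ hk hθ hγ hC hρ, ?_⟩
  intro E _ _ f Λ θ hall R
  have h2 : ∀ τ : E →+* ℂ,
      (fun N : ℕ => τ (approx 𝔪 c k d (ρ N) f) - θ τ) =O[atTop] (fun N : ℕ => 1 / (N : ℝ)) ∧
      Tendsto (fun N : ℕ => τ (approx 𝔪 c k d (ρ N) f)) atTop (𝓝 (θ τ)) := by
    intro τ
    have h3 := law h1 (hall τ).1 hk (hall τ).2.2 hγ hC hρ
    simp only [approx_map τ 𝔪 c k d _ f] at h3
    refine ⟨h3, ?_⟩
    have h4 := h3.trans_tendsto tendsto_one_div_atTop_nhds_zero_nat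
    have h5 := h4.add_const (θ τ)
    simpa using h5
  constructor
  · constructor
    · rintro ⟨e, he⟩
      refine ⟨e, fun τ => ?_⟩
      have h3 := (h2 τ).2.const_mul (τ e)
      have h4 : τ e * θ τ = R τ := by
        rw [← he τ]
        exact div_mul_cancel₀ _ (hall τ).2.1
      rw [h4] at h3
      refine h3.congr fun N => ?_
      rw [map_mul]
    · rintro ⟨e, he⟩
      refine ⟨e, fun τ => ?_⟩
      have h3 := (h2 τ).2.const_mul (τ e)
      have h4 := he τ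
      simp only [map_mul] at h4
      have h5 := tendsto_nhds_unique h4 h3
      rw [h5]
      exact mul_div_cancel_right₀ _ (hall τ).2.1
  · unfold HasElement
    rw [(lattice (b := fun τ T => R τ / τ (approx 𝔪 c k d (ρ ⌊T⌋₊) f))
      (A := fun τ => R τ / θ τ)
      fun τ => quot_bigO (x := fun N => τ (approx 𝔪 c k d (ρ N) f)) (hall τ).2.1 (h2 τ).1 (h2 τ).2).1]
    refine exists_congr fun D => and_congr_right fun _ => ?_
    constructor
    · intro h3 ε hε N₀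
      obtain ⟨T, hT, z, hz⟩ := h3 ε hε N₀
      exact ⟨⌊T⌋₊, Nat.le_floor hT, z, hz⟩
    · intro h3 ε hε T₀
      obtain ⟨N, hN, z, hz⟩ := h3 ε hε ⌈T₀⌉₊
      refine ⟨N, (Nat.le_ceil T₀).trans (by exact_mod_cast hN), z, ?_⟩
      simpa using hz

end Pool.Agent.Results.MP_5b8472_nt.AbelianEquivariantApproximations
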